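import Pool.Agent.H180.UP.Bound
import Pool.Agent.Helper741.UHF.Exist

/-! The embedding criterion for infinitely many copies of a matrix algebra. -/

open Finset Cardinal
open scoped Matrix.Norms.L2Operator

universe u

namespace Pool.Agent.H180.UP

open Pool.Agent.Helper741.UHF

/-! ### Combinatorics -/

theorem exists_inj {K I : Type u} [Infinite K] {s : ℕ} (S : Fin s → Set I)
    (hS : ∀ l, #K ≤ #(S l)) :
    ∃ g : K × Fin s → I, Function.Injective g ∧ ∀ k l, g (k, l) ∈ S l := by
  classical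
  have hK : ℵ₀ ≤ #K := aleph0_le_mk K
  let t : I → ULift.{u} (Fin s → Bool) := fun i => ULift.up fun l => decide (i ∈ S l)
  let X : ULift.{u} (Fin s → Bool) → Set I := fun a => {i | t i = a}
  have h1 : ∀ l, ∃ a : ULift.{u} (Fin s → Bool), #K ≤ #(X a) ∧ a.down l = true := by
    intro l
    have hcof : #(ULift.{u} (Fin s → Bool)) < (#K).ord.cof := by
      refine (lt_aleph0_of_finite _).trans_le ?_
      rw [Ordinal.aleph0_le_cof_iff, Ordinal.one_lt_cof_iff]
      exact isSuccLimit_ord hK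
    obtain ⟨a, ha⟩ := infinite_pigeonhole_card (fun i : S l => t i) (#K) (hS l) hK hcof
    have hne : Nonempty ((fun i : S l => t i) ⁻¹' {a}) := by
      rw [← mk_ne_zero_iff]
      intro h0
      rw [h0] at ha
      exact absurd (hK.trans ha) (not_le.mpr aleph0_pos)
    refine ⟨a, ha.trans ?_, ?_⟩
    · exact mk_le_of_injective (f := fun x : ((fun i : S l => t i) ⁻¹' {a}) =>
        (⟨x.1.1, x.2⟩ : X a)) (by
          intro x y hxy
          have := congrArg Subtype.val hxy
          exact Subtype.ext (Subtype.ext this))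
    · obtain ⟨x, hx⟩ := hne
      have hx' : t x = a := hx
      rw [← hx']
      exact decide_eq_true x.2
  choose a ha hal using h1
  have h2 : ∀ b, #K ≤ #(X b) → ∃ H : K × Fin s → I, Function.Injective H ∧ ∀ x, H x ∈ X b := by
    intro b hb
    have h3 : #(K × Fin s) ≤ #(X b) := by
      refine le_trans ?_ hb
      have h4 : #(K × Fin s) = #K * (s : Cardinal.{u}) := by
        rw [mk_prod, mk_fin, lift_natCast]
        simp
      rw [h4]
      exact mul_le_of_le hK le_rfl (natCast_le_aleph0.trans hK)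
    obtain ⟨f⟩ := h3
    exact ⟨fun x => (f x).1, fun x y hxy => f.injective (Subtype.ext hxy), fun x => (f x).2⟩
  choose H hHi hHm using h2
  have h5 : ∀ l x, t (H (a l) (ha l) x) = a l := fun l x => hHm (a l) (ha l) x
  refine ⟨fun x => H (a x.2) (ha x.2) x, ?_, ?_⟩
  · rintro ⟨k, l⟩ ⟨k', l'⟩ hxy
    dsimp only at hxy
    have h6 : a l = a l' := by
      rw [← h5 l (k, l), ← h5 l' (k', l'), hxy]
    have h7 : ∀ b (hb : #K ≤ #(X b)), a l' = b →
        H (a l') (ha l') (k', l') = H b hb (k', l') := by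
      rintro b hb rfl
      rfl
    rw [h7 (a l) (ha l) h6.symm] at hxy
    exact hHi _ _ hxy
  · intro k l
    have h6 : (t (H (a l) (ha l) (k, l))).down l = true := by
      rw [h5]
      exact hal l
    exact of_decide_eq_true h6

theorem exists_disjoint {K I : Type u} [Infinite K] (m : I → ℕ) {N : ℕ} (hN : 0 < N)
    (h : ∀ p, p.Prime → p ∣ N → #K ≤ #{i | p ∣ m i}) :
    ∃ G : K → Finset I, (∀ k k', k ≠ k' → Disjoint (G k) (G k')) ∧
      ∀ k, N ∣ ∏ i ∈ G k, m i := by
  classical
  set P := N.primeFactorsList with hP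
  obtain ⟨g, hg, hgm⟩ := exists_inj (K := K) (fun l : Fin P.length => {i | P[(l : ℕ)] ∣ m i}) (by
    intro l
    have hmem : P[(l : ℕ)] ∈ N.primeFactorsList := List.getElem_mem _
    exact h _ (Nat.prime_of_mem_primeFactorsList hmem) (Nat.dvd_of_mem_primeFactorsList hmem))
  refine ⟨fun k => Finset.univ.image fun l => g (k, l), ?_, ?_⟩
  · intro k k' hkk
    rw [Finset.disjoint_left]
    intro i hi hi'
    rw [Finset.mem_image] at hi hi'
    obtain ⟨l, _, rfl⟩ := hi
    obtain ⟨l', _, hl'⟩ := hi'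
    have := hg hl'
    exact hkk (congrArg Prod.fst this).symm
  · intro k
    rw [Finset.prod_image (by
      intro l _ l' _ hl
      exact congrArg Prod.snd (hg hl))]
    have h1 : ∏ l : Fin P.length, P[(l : ℕ)] = N := by
      rw [Fin.prod_univ_getElem, hP, Nat.prod_primeFactorsList hN.ne']
    rw [← h1]
    exact Finset.prod_dvd_prod_of_dvd _ _ fun l _ => hgm k l

/-! ### Matrix units over finite sets of sites -/

theorem munits_of_musys {J E : Type*} [CStarAlgebra E] {n : J → ℕ} {e : J → ℕ → ℕ → E}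
    (h : MUSys n e) (j : J) : MUnits (fun a b : Fin (n j) => e j a b) := by
  refine ⟨fun a b c d => ?_, fun a b => h.star_e _ _ _, ?_⟩
  · split_ifs with hbc
    · subst hbc
      exact h.mul_same j a b d b.2
    · exact h.mul_ne j a b c d (fun hh => hbc (Fin.ext hh))
  · rw [← h.one j, Finset.sum_range]

theorem exists_over {J E : Type u} [CStarAlgebra E] {n : J → ℕ} {e : J → ℕ → ℕ → E}
    (h : MUSys n e) (s : Finset J) :
    ∃ (κ : Type) (_ : Fintype κ) (_ : DecidableEq κ), Fintype.card κ = ∏ j ∈ s, n j ∧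
      ∃ V : κ → κ → E, MUnits V ∧
        ∀ z, (∀ j ∈ s, ∀ a b, Commute z (e j a b)) → ∀ a b, Commute z (V a b) := by
  classical
  induction s using Finset.induction_on with
  | empty =>
    refine ⟨Unit, inferInstance, inferInstance, by simp, fun _ _ => 1,
      ⟨fun a b c d => by simp, fun _ _ => star_one _, by simp⟩, fun z _ _ _ => Commute.one_right z⟩
  | insert i s hi ih =>
    obtain ⟨κ, i1, i2, hcard, V, hV, hVc⟩ := ih
    have hc : ∀ a b : Fin (n i), ∀ c d, Commute (e i a b) (V c d) := fun a b c d =>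
      hVc _ (fun j hj a' b' => h.comm i j (fun hh => hi (hh ▸ hj)) a b a' b') c d
    refine ⟨Fin (n i) × κ, inferInstance, inferInstance, ?_, _,
      (munits_of_musys h i).prod hV hc, ?_⟩
    · rw [Fintype.card_prod, hcard, Finset.prod_insert hi, Fintype.card_fin]
    · intro z hz a b
      exact (hz i (Finset.mem_insert_self _ _) _ _).mul_right
        (hVc z (fun j hj => hz j (Finset.mem_insert_of_mem hj)) _ _)

theorem exists_sized {J E : Type u} [CStarAlgebra E] {n : J → ℕ} {e : J → ℕ → ℕ → E}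
    (h : MUSys n e) (s : Finset J) {N : ℕ} (hN : N ∣ ∏ j ∈ s, n j) :
    ∃ W : Fin N → Fin N → E, MUnits W ∧
      ∀ z, (∀ j ∈ s, ∀ a b, Commute z (e j a b)) → ∀ a b, Commute z (W a b) := by
  classical
  obtain ⟨κ, i1, i2, hcard, V, hV, hVc⟩ := exists_over h s
  obtain ⟨M, hM⟩ := hN
  have hc : Fintype.card (Fin N × Fin M) = Fintype.card κ := by
    rw [Fintype.card_prod, Fintype.card_fin, Fintype.card_fin, hcard, hM]
  let σ : Fin N × Fin M ≃ κ := Fintype.equivOfCardEq hc
  have h1 := (hV.reindex σ)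
  refine ⟨_, h1.coarse, fun z hz a b => Commute.sum_right _ _ _ fun c _ => hVc z hz _ _⟩

/-- A family of systems of matrix units of size `N` over pairwise disjoint finite sets of
sites. -/
theorem exists_family {J K E : Type u} [CStarAlgebra E] {n : J → ℕ} {e : J → ℕ → ℕ → E}
    (h : MUSys n e) {N : ℕ} (hN : 0 < N) (G : K → Finset J)
    (hG : ∀ k k', k ≠ k' → Disjoint (G k) (G k')) (hGN : ∀ k, N ∣ ∏ i ∈ G k, n i) :
    ∃ e' : K → ℕ → ℕ → E, MUSys (fun _ => N) e' := by
  classical
  have h1 := fun k => exists_sized h (G k) (hGN k)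
  choose W hW hWc using h1
  have hcomm : ∀ k k', k ≠ k' → ∀ a b c d, Commute (W k a b) (W k' c d) := by
    intro k k' hkk a b c d
    refine hWc k' _ (fun j hj a' b' => ?_) c d
    refine (hWc k _ (fun i hi c' d' => ?_) a b).symm
    refine h.comm j i ?_ a' b' c' d'
    rintro rfl
    exact Finset.disjoint_left.mp (hG k k' hkk) hi hj
  let e' : K → ℕ → ℕ → E := fun k a b =>
    if hab : a < N ∧ b < N then W k ⟨a, hab.1⟩ ⟨b, hab.2⟩ else 0
  have hpos : ∀ k a b (ha : a < N) (hb : b < N), e' k a b = W k ⟨a, ha⟩ ⟨b, hb⟩ :=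
    fun k a b ha hb => dif_pos ⟨ha, hb⟩
  have hneg : ∀ k a b, ¬ (a < N ∧ b < N) → e' k a b = 0 := fun k a b hab => dif_neg hab
  refine ⟨e', fun _ => hN, fun k a b ha => ?_, fun k a b c hb => ?_, fun k a b c d hbc => ?_,
    fun k a b => ?_, fun k => ?_, fun i j hij a b c d => ?_⟩
  · exact hneg k a b (fun hh => absurd hh.1 (not_lt.mpr ha))
  · by_cases ha : a < N
    · by_cases hc : c < N
      · rw [hpos k a b ha hb, hpos k b c hb hc, hpos k a c ha hc, (hW k).mul, if_pos rfl]
      · rw [hneg k b c (fun hh => hc hh.2), hneg k a c (fun hh => hc hh.2), mul_zero]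
    · rw [hneg k a b (fun hh => ha hh.1), hneg k a c (fun hh => ha hh.1), zero_mul]
  · by_cases hab : a < N ∧ b < N
    · by_cases hcd : c < N ∧ d < N
      · rw [hpos k a b hab.1 hab.2, hpos k c d hcd.1 hcd.2, (hW k).mul, if_neg]
        intro hh
        exact hbc (congrArg Fin.val hh)
      · rw [hneg k c d hcd, mul_zero]
    · rw [hneg k a b hab, zero_mul]
  · by_cases hab : a < N ∧ b < N
    · rw [hpos k a b hab.1 hab.2, hpos k b a hab.2 hab.1, (hW k).str]
    · rw [hneg k a b hab, hneg k b a (fun hh => hab ⟨hh.2, hh.1⟩), star_zero]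
  · rw [Finset.sum_range, ← (hW k).one]
    exact Finset.sum_congr rfl fun a _ => hpos k a a a.2 a.2
  · by_cases hab : a < N ∧ b < N
    · by_cases hcd : c < N ∧ d < N
      · rw [hpos i a b hab.1 hab.2, hpos j c d hcd.1 hcd.2]
        exact hcomm i j hij _ _ _ _
      · rw [hneg j c d hcd]
        exact Commute.zero_right _
    · rw [hneg i a b hab]
      exact Commute.zero_left _

/-! ### The criterion -/

theorem embeds_of_le {J K E C : Type u} [CStarAlgebra E] [CStarAlgebra C] {n : J → ℕ}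
    [Infinite K] {N : ℕ} (hN : 0 < N) (hn : ∀ j, 0 < n j)
    (hE : IsMatrixTensor n E) (hC : IsMatrixTensor (fun _ : K => N) C)
    (hle : ∀ p, p.Prime → p ∣ N → #K ≤ #{j | p ∣ n j}) : EmbedsUnitally C E := by
  obtain ⟨hEn, ι, hι, _⟩ := hE
  obtain ⟨hCn, κ, hκ, hκg⟩ := hC
  obtain ⟨G, hG, hGN⟩ := exists_disjoint n hN hle
  obtain ⟨e', he'⟩ := exists_family (musys_unitsOf ι hn hι) hN G hG hGN
  obtain ⟨ψ, hψ, _⟩ := exists_embedding (musys_unitsOf κ (fun _ => hN) hκ) he'
    (adjoin_unitsOf κ hκg)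
  exact ⟨ψ, hψ⟩

theorem le_of_embeds {J K E C : Type u} [CStarAlgebra E] [CStarAlgebra C] {n : J → ℕ}
    [Infinite K] {N : ℕ} (hN : 0 < N) (hn : ∀ j, 0 < n j)
    (hE : IsMatrixTensor n E) (hC : IsMatrixTensor (fun _ : K => N) C)
    (hφ : EmbedsUnitally C E) {p : ℕ} (hp : p.Prime) (hpN : p ∣ N) : #K ≤ #{j | p ∣ n j} := by
  classical
  obtain ⟨hEn, ι, hι, hιg⟩ := hE
  obtain ⟨_, κ, hκ, _⟩ := hC
  obtain ⟨φ, _⟩ := hφ
  have h := musys_unitsOf ι hn hι
  have hgen := adjoin_unitsOf ι hιg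
  have h2 := (musys_unitsOf κ (fun _ => hN) hκ).map φ
  have : Nonempty (Fin N) := ⟨⟨0, hN⟩⟩
  refine mk_le h hgen (ι := Fin N) (U := fun k a b => φ (unitsOf κ k a b))
    (fun k => munits_of_musys h2 k) (fun i j hij a b c d => h2.comm i j hij a b c d) hp ?_
  rwa [Fintype.card_fin]

/-- The embedding criterion for infinitely many copies of `M_N`. -/
theorem embeds_iff {J K E C : Type u} [CStarAlgebra E] [CStarAlgebra C] {n : J → ℕ}
    [Infinite K] {N : ℕ} (hN : 0 < N) (hn : ∀ j, 0 < n j)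
    (hE : IsMatrixTensor n E) (hC : IsMatrixTensor (fun _ : K => N) C) :
    EmbedsUnitally C E ↔ ∀ p, p.Prime → p ∣ N → #K ≤ #{j | p ∣ n j} :=
  ⟨fun h _ hp hpN => le_of_embeds hN hn hE hC h hp hpN, embeds_of_le hN hn hE hC⟩

theorem cancel {I K K' A B C E : Type u} [CStarAlgebra A] [CStarAlgebra B]
    [CStarAlgebra C] [CStarAlgebra E] [Infinite K'] {m : I → ℕ} (hm : ∀ i, 0 < m i) {N : ℕ}
    (hN : 0 < N) (hlt : #K < #K') (hA : IsMatrixTensor m A)
    (hB : IsMatrixTensor (fun _ : K => N) B) (hC : IsMatrixTensor (fun _ : K' => N) C)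
    (hE : IsCStarTensor A B E) (hφ : EmbedsUnitally C E) : EmbedsUnitally C A := by
  have hpos : ∀ j : I ⊕ K, 0 < Sum.elim m (fun _ : K => N) j := by
    rintro (i | k)
    · exact hm i
    · exact hN
  rw [embeds_iff hN hm hA hC]
  intro p hp hpN
  have h1 := le_of_embeds hN hpos (isMatrixTensor_sum hA hB hE) hC hφ hp hpN
  have h2 : #{j | p ∣ Sum.elim m (fun _ : K => N) j} ≤ #{i | p ∣ m i} + #K := by
    let f : {j | p ∣ Sum.elim m (fun _ : K => N) j} → {i | p ∣ m i} ⊕ K := fun j =>
      match j with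
      | ⟨Sum.inl i, hi⟩ => Sum.inl ⟨i, hi⟩
      | ⟨Sum.inr k, _⟩ => Sum.inr k
    have hf : Function.Injective f := by
      rintro ⟨i | k, hi⟩ ⟨i' | k', hi'⟩ hff
      · have := Sum.inl_injective hff
        have := congrArg Subtype.val this
        exact Subtype.ext (congrArg Sum.inl this)
      · exact absurd hff (by simp [f])
      · exact absurd hff (by simp [f])
      · have := Sum.inr_injective hff
        exact Subtype.ext (congrArg Sum.inr this)
    have := mk_le_of_injective hf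
    simpa using this
  exact card_infinite hlt (aleph0_le_mk K') (h1.trans h2)

end Pool.Agent.H180.UP
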