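import Pool.Agent.H180.UP.Core

/-! A commuting family of copies of a matrix algebra is at most as large as the set of factors
whose size is divisible by a given prime divisor of the size of the copies. -/

open Finset Cardinal Filter Topology

universe u

namespace Pool.Agent.H180.UP

open Pool.Agent.Helper741.UHF

variable {J E : Type u} [CStarAlgebra E] {n : J → ℕ} {e : J → ℕ → ℕ → E}

/-! ### The finite case -/

theorem exists_dvd [Nontrivial E] (h : MUSys n e)
    (hgen : (Algebra.adjoin ℂ {x | ∃ j a b, x = e j a b}).topologicalClosure = ⊤)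
    {κ : Type} [Fintype κ] [DecidableEq κ] [Nonempty κ] {V : κ → κ → E} (hV : MUnits V) :
    ∃ T : Finset J, Fintype.card κ ∣ ∏ j ∈ T, n j := by
  classical
  set q : ℝ := ((Fintype.card κ : ℕ) : ℝ) with hq
  have hq0 : 0 ≤ q := Nat.cast_nonneg _
  set δ : ℝ := 1 / (150 * (q + 1)) with hδ
  have hδ0 : 0 < δ := by positivity
  have hδ1 : δ * (150 * (q + 1)) ≤ 1 := by
    rw [hδ, one_div, inv_mul_cancel₀ (by positivity)]
  have hδ2 : δ ≤ 1 := by
    nlinarith
  set η : ℝ := δ / (4 + q) with hη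
  have hη0 : 0 < η := by positivity
  have hη1 : η * (4 + q) = δ := div_mul_cancel₀ _ (by positivity)
  have hη2 : η ≤ 1 := by nlinarith
  have hx : ∀ a b : κ, ∃ T : Finset J, ∃ w ∈ D e (T : Set J), ‖w - V a b‖ ≤ η := by
    intro a b
    obtain ⟨T, w, hw, hwu⟩ := dense_D hgen (V a b) hη0
    exact ⟨T, w, hw, by rw [norm_sub_rev]; exact hwu.le⟩
  choose Tx x hxD hxV using hx
  set T : Finset J := Finset.univ.biUnion fun a => Finset.univ.biUnion fun b => Tx a b with hT
  set ℓ := T.toList with hℓ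
  let C : StarSubalgebra ℂ E := StarSubalgebra.centralizer ℂ Set.univ
  have hCmem : ∀ z, z ∈ C ↔ ∀ g, g * z = z * g := by
    intro z
    rw [StarSubalgebra.mem_centralizer_iff]
    exact ⟨fun hz g => (hz g trivial).1, fun hz g _ => ⟨hz g, hz _⟩⟩
  have hC : IsClosed (C : Set E) := Set.isClosed_centralizer _
  have hcomm : ∀ x ∈ C, ∀ y ∈ C, x * y = y * x := fun x _ y hy => (hCmem y).mp hy x
  have hD0 : ∀ w ∈ D e (∅ : Set J), w ∈ C := by
    intro w hw
    refine D_induction (e := e) (N := ∅) (p := fun w => w ∈ C) ?_ ?_ ?_ ?_ hw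
    · intro j hj
      exact absurd hj (Set.notMem_empty j)
    · intro c
      exact algebraMap_mem C c
    · exact fun x y hx hy => add_mem hx hy
    · exact fun x y hx hy => mul_mem hx hy
  have hsl : ∀ w ∈ D e (T : Set J), w ∈ sliceAlg h ℓ C := by
    intro w hw f hf g hg
    refine hD0 _ (Sl_mem_D h ℓ (Finset.nodup_toList T) (fun j _ => Set.notMem_empty j) ?_
      f g hf hg)
    refine D_mono ?_ hw
    intro j hj
    exact Or.inr (by simpa [hℓ] using hj)
  have hxS : ∀ a b, x a b ∈ sliceAlg h ℓ C := fun a b => hsl _ (D_mono (by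
    intro j hj
    rw [Finset.mem_coe] at hj ⊢
    rw [hT, Finset.mem_biUnion]
    exact ⟨a, Finset.mem_univ _, Finset.mem_biUnion.mpr ⟨b, Finset.mem_univ _, hj⟩⟩) (hxD a b))
  have hAP : ApproxMU δ x := hV.close hη2 hxV (by nlinarith) (by nlinarith)
  have hd := transfer h ℓ C hC hcomm hδ1 x hxS hAP
  have hprod : (ℓ.map n).prod = ∏ j ∈ T, n j := by
    rw [hℓ, Finset.prod_map_toList]
  exact ⟨T, hprod ▸ hd⟩

theorem exists_power {Λ : Type u} {ι : Type} [Fintype ι] [DecidableEq ι] [Nonempty ι]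
    {U : Λ → ι → ι → E} (hU : ∀ α, MUnits (U α))
    (hUc : ∀ α β, α ≠ β → ∀ a b c d, Commute (U α a b) (U β c d)) (s : Finset Λ) :
    ∃ (κ : Type) (_ : Fintype κ) (_ : DecidableEq κ) (_ : Nonempty κ),
      Fintype.card κ = Fintype.card ι ^ s.card ∧ ∃ V : κ → κ → E, MUnits V ∧
        ∀ z, (∀ α ∈ s, ∀ a b, Commute z (U α a b)) → ∀ a b, Commute z (V a b) := by
  classical
  induction s using Finset.induction_on with
  | empty =>
    refine ⟨Unit, inferInstance, inferInstance, inferInstance, by simp, fun _ _ => 1,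
      ⟨fun a b c d => by simp, fun _ _ => star_one _, by simp⟩, fun z _ _ _ => Commute.one_right z⟩
  | insert α s hα ih =>
    obtain ⟨κ, i1, i2, i3, hcard, V, hV, hVc⟩ := ih
    have hc : ∀ a b c d, Commute (U α a b) (V c d) := fun a b c d =>
      hVc _ (fun β hβ a' b' => hUc α β (fun hh => hα (hh ▸ hβ)) a b a' b') c d
    refine ⟨ι × κ, inferInstance, inferInstance, inferInstance, ?_, _, (hU α).prod hV hc, ?_⟩
    · rw [Fintype.card_prod, hcard, Finset.card_insert_of_notMem hα, pow_succ, mul_comm]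
    · intro z hz a b
      exact (hz α (Finset.mem_insert_self _ _) _ _).mul_right
        (hVc z (fun β hβ => hz β (Finset.mem_insert_of_mem hβ)) _ _)

theorem padic_prod' {p : ℕ} [Fact p.Prime] {n : J → ℕ} (T : Finset J) (hT : ∀ j ∈ T, n j ≠ 0) :
    padicValNat p (∏ j ∈ T, n j) = ∑ j ∈ T, padicValNat p (n j) := by
  classical
  induction T using Finset.induction_on with
  | empty => simp
  | insert a T ha ih =>
    rw [Finset.prod_insert ha, Finset.sum_insert ha, padicValNat.mul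
      (hT a (Finset.mem_insert_self _ _))
      (Finset.prod_ne_zero_iff.mpr fun j hj => hT j (Finset.mem_insert_of_mem hj)),
      ih fun j hj => hT j (Finset.mem_insert_of_mem hj)]

theorem not_infinite_of_finite [Nontrivial E] (h : MUSys n e)
    (hgen : (Algebra.adjoin ℂ {x | ∃ j a b, x = e j a b}).topologicalClosure = ⊤)
    {Λ : Type u} [Infinite Λ] {ι : Type} [Fintype ι] [DecidableEq ι] [Nonempty ι]
    {U : Λ → ι → ι → E} (hU : ∀ α, MUnits (U α))
    (hUc : ∀ α β, α ≠ β → ∀ a b c d, Commute (U α a b) (U β c d))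
    {p : ℕ} (hp : p.Prime) (hpι : p ∣ Fintype.card ι)
    (hP : {j | p ∣ n j}.Finite) : False := by
  classical
  have : Fact p.Prime := ⟨hp⟩
  set W := ∑ j ∈ hP.toFinset, padicValNat p (n j) with hW
  obtain ⟨s, hs⟩ := Infinite.exists_subset_card_eq Λ (W + 1)
  obtain ⟨κ, i1, i2, i3, hcard, V, hV, _⟩ := exists_power hU hUc s
  obtain ⟨T, hT⟩ := exists_dvd h hgen hV
  have h1 : p ^ (W + 1) ∣ ∏ j ∈ T, n j := by
    refine dvd_trans ?_ hT
    rw [hcard, hs]
    exact pow_dvd_pow_of_dvd hpι _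
  have hne : ∏ j ∈ T, n j ≠ 0 := Finset.prod_ne_zero_iff.mpr fun j _ => (h.pos j).ne'
  have h2 := (padicValNat_dvd_iff_le (p := p) hne).mp h1
  rw [padic_prod' T fun j _ => (h.pos j).ne'] at h2
  have : ∑ j ∈ T, padicValNat p (n j) ≤ W := by
    rw [← Finset.sum_filter_add_sum_filter_not T (fun j => p ∣ n j)]
    have h0 : ∑ j ∈ T.filter (fun j => ¬ p ∣ n j), padicValNat p (n j) = 0 := by
      refine Finset.sum_eq_zero fun j hj => ?_
      exact padicValNat.eq_zero_of_not_dvd (Finset.mem_filter.mp hj).2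
    rw [h0, add_zero]
    refine Finset.sum_le_sum_of_subset ?_
    intro j hj
    simpa using (Finset.mem_filter.mp hj).2
  omega

/-! ### The infinite case -/

/-- the list of the profiles of a finite family -/
noncomputable def profs {B : Type*} [Fintype B] (n : J → ℕ) (e : J → ℕ → ℕ → E) (ℓ : List J)
    (x : B → E) : List (List E) :=
  (Finset.univ : Finset B).toList.map fun b => prof n e ℓ (x b)

theorem profs_eq {B : Type*} [Fintype B] {ℓ ℓ' : List J} {x x' : B → E}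
    (h : profs n e ℓ' x' = profs n e ℓ x) (b : B) : prof n e ℓ' (x' b) = prof n e ℓ (x b) := by
  unfold profs at h
  rw [List.map_inj_left] at h
  exact h b (by simp)

/-- types -/
abbrev Ty (J E : Type u) : Type u := ℕ × List J × List ℕ × List (List E)

/-- types over `N` -/
def Over (e : J → ℕ → ℕ → E) (N : Set J) : Set (Ty J E) :=
  {τ | (∀ j ∈ τ.2.1, j ∈ N) ∧ ∀ l ∈ τ.2.2.2, ∀ c ∈ l, c ∈ D e N}

theorem mk_Over_le {κ : Cardinal.{u}} (hκ : ℵ₀ ≤ κ) (N : Set J) (hN : #N ≤ κ) :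
    #(Over e N) ≤ κ := by
  have hD : #(D e N) ≤ κ := mk_D_le.trans (max_le hκ hN)
  let F : (ULift.{u} ℕ × List N × ULift.{u} (List ℕ) × List (List (D e N))) → Ty J E :=
    fun p => (p.1.down, p.2.1.map Subtype.val, p.2.2.1.down,
      p.2.2.2.map (List.map Subtype.val))
  have hsub : Over e N ⊆ Set.range F := by
    rintro ⟨m, R, ν, cx⟩ ⟨h1, h2⟩
    dsimp only at h1 h2
    lift R to List N using h1
    lift cx to List (List (D e N)) using h2
    exact ⟨(⟨m⟩, R, ⟨ν⟩, cx), rfl⟩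
  refine (mk_le_mk_of_subset hsub).trans (mk_range_le.trans ?_)
  simp only [mk_prod, lift_id]
  refine mul_le_of_le hκ (by simpa using hκ) ?_
  refine mul_le_of_le hκ (mk_list_le hκ hN) ?_
  refine mul_le_of_le hκ (by simpa using hκ) ?_
  exact mk_list_le hκ (mk_list_le hκ hD)

theorem exists_k_list2 (N : ℕ → Set J) (hN : Monotone N) (l : List (List E))
    (hl : ∀ l' ∈ l, ∀ c ∈ l', c ∈ D e (⋃ k, N k)) : ∃ k, ∀ l' ∈ l, ∀ c ∈ l', c ∈ D e (N k) := by
  induction l with
  | nil => exact ⟨0, by simp⟩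
  | cons a l ih =>
    obtain ⟨k, hk⟩ := ih fun j hj => hl j (List.mem_cons_of_mem _ hj)
    obtain ⟨k', hk'⟩ := exists_k_list N hN a (hl a List.mem_cons_self)
    refine ⟨max k k', fun j hj => ?_⟩
    rcases List.mem_cons.mp hj with rfl | hj
    · exact fun c hc => D_mono (hN (le_max_right _ _)) (hk' c hc)
    · exact fun c hc => D_mono (hN (le_max_left _ _)) (hk j hj c hc)

theorem Over_finitary (N : ℕ → Set J) (hN : Monotone N) (τ : Ty J E)
    (hτ : τ ∈ Over e (⋃ k, N k)) : ∃ k, τ ∈ Over e (N k) := by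
  obtain ⟨h1, h2⟩ := hτ
  obtain ⟨k1, h1⟩ := exists_k_set N hN _ h1
  obtain ⟨k2, h2⟩ := exists_k_list2 N hN _ h2
  exact ⟨max k1 k2, fun j hj => hN (le_max_left _ _) (h1 j hj),
    fun l hl c hc => D_mono (hN (le_max_right _ _)) (h2 l hl c hc)⟩

/-- realisation of a type -/
def Real {Λ : Type u} {B : Type} [Fintype B] (n : J → ℕ) (e : J → ℕ → ℕ → E) (u : Λ → B → E)
    (ε : ℕ → ℝ) (τ : Ty J E) (β : Λ) (t : Set J) : Prop :=
  ∃ ℓ : List J, ℓ.Nodup ∧ {j | j ∈ ℓ} = t ∧ (∀ j ∈ ℓ, j ∉ τ.2.1) ∧ ℓ.map n = τ.2.2.1 ∧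
    ∃ x : B → E, (∀ b, x b ∈ D e ({j | j ∈ τ.2.1} ∪ {j | j ∈ ℓ})) ∧
      (∀ b, ‖x b - u β b‖ ≤ ε τ.1) ∧ profs n e ℓ x = τ.2.2.2

theorem mk_le_of_infinite [Nontrivial E] (h : MUSys n e)
    (hgen : (Algebra.adjoin ℂ {x | ∃ j a b, x = e j a b}).topologicalClosure = ⊤)
    {Λ : Type u} {ι : Type} [Fintype ι] [DecidableEq ι] [Nonempty ι]
    {U : Λ → ι → ι → E} (hU : ∀ α, MUnits (U α))
    (hUc : ∀ α β, α ≠ β → ∀ a b c d, Commute (U α a b) (U β c d))
    {p : ℕ} (hp : p.Prime) (hpι : p ∣ Fintype.card ι)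
    (hP : ℵ₀ ≤ #{j | p ∣ n j}) : #Λ ≤ #{j | p ∣ n j} := by
  classical
  by_contra hcon
  push Not at hcon
  set q : ℝ := ((Fintype.card ι : ℕ) : ℝ) with hq
  have hq0 : 0 ≤ q := Nat.cast_nonneg _
  set δ : ℝ := 1 / (150 * (q + 1)) with hδ
  have hδ0 : 0 < δ := by positivity
  have hδ1 : δ * (150 * (q + 1)) ≤ 1 := by
    rw [hδ, one_div, inv_mul_cancel₀ (by positivity)]
  have hδ2 : δ ≤ 1 := by
    nlinarith
  set η : ℝ := δ / (4 + q) with hη
  have hη0 : 0 < η := by positivity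
  have hη1 : η * (4 + q) = δ := div_mul_cancel₀ _ (by positivity)
  have hη2 : η ≤ 1 := by nlinarith
  set c := η / 5 with hcdef
  have hc : 0 < c := by positivity
  have hc5 : 5 * c = η := by
    rw [hcdef]
    ring
  set ε : ℕ → ℝ := fun m => c * (1 / 2) ^ m with hε
  have hεpos : ∀ m, 0 < ε m := fun m => by positivity
  have hε1 : ∀ m, ε m ≤ 1 := by
    intro m
    have h1 : ((1 / 2 : ℝ)) ^ m ≤ 1 := pow_le_one₀ (by norm_num) (by norm_num)
    calc ε m ≤ c * 1 := by
          simp only [hε]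
          gcongr
      _ ≤ 1 := by linarith
  set u : Λ → ι × ι → E := fun α b => U α b.1 b.2 with hu
  obtain ⟨N, hPN, α, hα⟩ := closing_off (#{j | p ∣ n j}) hP hcon (Over e)
    (fun N hN => mk_Over_le hP N hN) (fun N hN τ hτ => Over_finitary N hN τ hτ)
    (Real n e u ε) {j | p ∣ n j} le_rfl
  -- approximations
  have hx : ∀ m (b : ι × ι), ∃ T : Finset J, ∃ w ∈ D e (T : Set J), ‖w - u α b‖ ≤ ε m := by
    intro m b
    obtain ⟨T, w, hw, hwu⟩ := dense_D hgen (u α b) (hεpos m)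
    exact ⟨T, w, hw, by rw [norm_sub_rev]; exact hwu.le⟩
  choose Tx x hxD hxu using hx
  set T : ℕ → Finset J := fun m => (Finset.range (m + 1)).biUnion fun k =>
    Finset.univ.biUnion fun b => Tx k b with hT
  have hTmono : ∀ m, T m ⊆ T (m + 1) := fun m =>
    Finset.biUnion_subset_biUnion_of_subset_left _ (Finset.range_subset_range.mpr (by omega))
  have hxT : ∀ m b, x m b ∈ D e (T m : Set J) := fun m b => D_mono (by
    intro j hj
    rw [Finset.mem_coe] at hj ⊢
    simp only [hT, Finset.mem_biUnion, Finset.mem_range, Finset.mem_univ, true_and]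
    exact ⟨m, by omega, b, hj⟩) (hxD m b)
  set L : List J := ((T 0).filter (· ∉ N)).toList with hL
  set r : ℕ → List J := fun m => ((T (m + 1) \ T m).filter (· ∉ N)).toList with hr
  set rest : ℕ → List J := fun m => Nat.rec [] (fun k l => l ++ r k) m with hrest
  have hrest0 : rest 0 = [] := rfl
  have hrestS : ∀ m, rest (m + 1) = rest m ++ r m := fun m => rfl
  have hmemL : ∀ m j, j ∈ L ++ rest m ↔ j ∈ T m ∧ j ∉ N := by
    intro m
    induction m with
    | zero =>
      intro j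
      rw [hrest0, List.append_nil, hL, Finset.mem_toList, Finset.mem_filter]
    | succ m ih =>
      intro j
      rw [hrestS, ← List.append_assoc, List.mem_append, ih]
      simp only [hr, Finset.mem_toList, Finset.mem_filter, Finset.mem_sdiff]
      constructor
      · rintro (⟨h1, h2⟩ | ⟨⟨h1, _⟩, h2⟩)
        · exact ⟨hTmono m h1, h2⟩
        · exact ⟨h1, h2⟩
      · rintro ⟨h1, h2⟩
        by_cases h3 : j ∈ T m
        · exact Or.inl ⟨h3, h2⟩
        · exact Or.inr ⟨⟨h1, h3⟩, h2⟩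
  have hnodup : ∀ m, (L ++ rest m).Nodup := by
    intro m
    induction m with
    | zero =>
      rw [hrest0, List.append_nil]
      exact Finset.nodup_toList _
    | succ m ih =>
      rw [hrestS, ← List.append_assoc]
      refine List.Nodup.append ih (Finset.nodup_toList _) ?_
      intro j hj hj'
      have h1 := (hmemL m j).mp hj
      simp only [hr, Finset.mem_toList, Finset.mem_filter, Finset.mem_sdiff] at hj'
      exact hj'.1.2 h1.1
  set R : ℕ → List J := fun m => ((T m).filter (· ∈ N)).toList with hR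
  have hmemR : ∀ m j, j ∈ R m ↔ j ∈ T m ∧ j ∈ N := by
    intro m j
    rw [hR, Finset.mem_toList, Finset.mem_filter]
  have hTsub : ∀ m, (T m : Set J) ⊆ {j | j ∈ R m} ∪ {j | j ∈ L ++ rest m} := by
    intro m j hj
    by_cases h3 : j ∈ N
    · exact Or.inl ((hmemR m j).mpr ⟨hj, h3⟩)
    · exact Or.inr ((hmemL m j).mpr ⟨hj, h3⟩)
  have hLR : ∀ m, ∀ j ∈ L ++ rest m, j ∉ R m := fun m j hj hj' =>
    ((hmemL m j).mp hj).2 ((hmemR m j).mp hj').2
  have hxD' : ∀ m b, x m b ∈ D e ({j | j ∈ R m} ∪ {j | j ∈ L ++ rest m}) := fun m b =>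
    D_mono (hTsub m) (hxT m b)
  -- the twin
  have htwin : ∀ m, ∃ β, β ≠ α ∧ ∃ ℓ' : List J, (∀ j ∈ ℓ', j ∉ L ++ rest m) ∧
      (∀ j ∈ ℓ', j ∉ R m) ∧ ℓ'.map n = (L ++ rest m).map n ∧ ∃ x' : ι × ι → E,
      (∀ b, ‖x' b - u β b‖ ≤ ε m) ∧ ∀ b, prof n e ℓ' (x' b) = prof n e (L ++ rest m) (x m b) := by
    intro m
    have hover : ((m, R m, (L ++ rest m).map n, profs n e (L ++ rest m) (x m)) : Ty J E) ∈
        Over e N := by
      refine ⟨fun j hj => ((hmemR m j).mp hj).2, ?_⟩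
      intro l hl c hc
      unfold profs at hl
      obtain ⟨b, _, rfl⟩ := List.mem_map.mp hl
      obtain ⟨f, hf, g, hg, rfl⟩ := mem_prof hc
      refine Sl_mem_D h _ (hnodup m) (fun j hj => ((hmemL m j).mp hj).2) ?_ f g hf hg
      refine D_mono ?_ (hxT m b)
      intro j hj
      by_cases h3 : j ∈ N
      · exact Or.inl h3
      · exact Or.inr ((hmemL m j).mpr ⟨hj, h3⟩)
    obtain ⟨β, hβ, t', ht', ℓ', h1, h2, h3, h4, x', hx', h5, h7⟩ :=
      hα _ hover {j | j ∈ L ++ rest m}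
        (Set.disjoint_left.mpr fun j hj hjN => ((hmemL m j).mp hj).2 hjN)
        ⟨L ++ rest m, hnodup m, rfl, hLR m, rfl, x m, hxD' m, hxu m, rfl⟩
        {j | j ∈ L ++ rest m} (List.finite_toSet _)
    refine ⟨β, hβ, ℓ', ?_, h3, h4, x', h5, profs_eq h7⟩
    intro j hj hj'
    rw [← h2] at ht'
    exact Set.disjoint_left.mp ht' hj hj'
  -- apply the core
  obtain ⟨C, hC, hCc, Z, hZC, hZU⟩ := core h hc L rest r hrest0 hrestS (B := ι × ι)
    (fun b => (b.2, b.1)) (fun b m => x m b) (fun b => u α b)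
    (fun b => (hU α).str _ _)
    (fun b m => hxu m b)
    (by
      intro b m j hj a d
      refine commute_of_mem_D h (hxT m b) ?_ a d
      simp only [hr, Finset.mem_toList, Finset.mem_filter, Finset.mem_sdiff] at hj
      exact hj.1.2)
    (by
      intro b b' m f hf g hg f' hf' g' hg'
      obtain ⟨β, hβ, ℓ', hdis, hℓ'R, hmap, x', hx', hpx⟩ := htwin m
      refine (stage h (hnodup m) (hLR m) hmap hdis hℓ'R (hxD' m b) (hxD' m b') (hpx b')
        f g f' g' hf' hg').trans ?_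
      exact norm_comm_le (hε1 m) ((hU α).norm_le _ _) ((hU β).norm_le _ _) (hxu m b) (hx' b')
        (hUc α β hβ.symm _ _ _ _).eq)
  have hZ' : ∀ a b, ‖Z (a, b) - U α a b‖ ≤ η := fun a b => hc5 ▸ hZU (a, b)
  have hAP : ApproxMU δ (fun a b => Z (a, b)) :=
    (hU α).close hη2 hZ' (by nlinarith) (by nlinarith)
  have hd := transfer h L C hC hCc hδ1 (fun a b => Z (a, b)) (fun a b => hZC (a, b)) hAP
  have hd2 : p ∣ (L.map n).prod := hpι.trans hd
  obtain ⟨a, ha, hpa⟩ := (hp.prime.dvd_prod_iff).mp hd2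
  obtain ⟨j, hj, rfl⟩ := List.mem_map.mp ha
  rw [hL, Finset.mem_toList, Finset.mem_filter] at hj
  exact hj.2 (hPN hpa)

theorem mk_le [Nontrivial E] (h : MUSys n e)
    (hgen : (Algebra.adjoin ℂ {x | ∃ j a b, x = e j a b}).topologicalClosure = ⊤)
    {Λ : Type u} [Infinite Λ] {ι : Type} [Fintype ι] [DecidableEq ι] [Nonempty ι]
    {U : Λ → ι → ι → E} (hU : ∀ α, MUnits (U α))
    (hUc : ∀ α β, α ≠ β → ∀ a b c d, Commute (U α a b) (U β c d))
    {p : ℕ} (hp : p.Prime) (hpι : p ∣ Fintype.card ι) :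
    #Λ ≤ #{j | p ∣ n j} := by
  rcases lt_or_ge (#{j | p ∣ n j}) ℵ₀ with hP | hP
  · exact absurd (not_infinite_of_finite h hgen hU hUc hp hpι
      (Cardinal.lt_aleph0_iff_set_finite.mp hP)) id
  · exact mk_le_of_infinite h hgen hU hUc hp hpι hP

end Pool.Agent.H180.UP
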