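import Pool.Agent.H180.UP.Num
import Pool.Agent.Helper741.UHF.Infinite

/-! Transfer of approximate matrix units to a finite stage. -/

open Finset Cardinal Filter Topology

universe u

namespace Pool.Agent.H180.UP

open Pool.Agent.Helper741.UHF

/-- exact matrix units (with the unit of the algebra) -/
structure MUnits {ι E : Type*} [Fintype ι] [DecidableEq ι] [CStarAlgebra E]
    (U : ι → ι → E) : Prop where
  mul : ∀ a b c d, U a b * U c d = if b = c then U a d else 0
  str : ∀ a b, star (U a b) = U b a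
  one : ∑ a, U a a = 1

section units

variable {ι κ E : Type*} [Fintype ι] [DecidableEq ι] [Fintype κ] [DecidableEq κ] [CStarAlgebra E]
  {U : ι → ι → E}

theorem MUnits.norm_le (h : MUnits U) (a b : ι) : ‖U a b‖ ≤ 1 := by
  have h1 : ∀ a, ‖U a a‖ ≤ 1 := fun a => norm_proj_le_one
    ⟨by rw [IsIdempotentElem, h.mul, if_pos rfl], h.str a a⟩
  have h2 : ‖U a b‖ * ‖U a b‖ = ‖U b b‖ := by
    rw [← CStarRing.norm_star_mul_self, h.str, h.mul, if_pos rfl]
  nlinarith [norm_nonneg (U a b), h1 b]

theorem MUnits.close (h : MUnits U) {Z : ι → ι → E} {η : ℝ} (hη : η ≤ 1)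
    (hZ : ∀ a b, ‖Z a b - U a b‖ ≤ η) {δ : ℝ} (hδ4 : 4 * η ≤ δ)
    (hδ : Fintype.card ι * η ≤ δ) : ApproxMU δ Z := by
  refine ⟨fun a b => ?_, fun a b c d => ?_, fun a b => ?_, ?_⟩
  · have e : Z a b = (Z a b - U a b) + U a b := by abel
    rw [e]
    refine (norm_add_le _ _).trans ?_
    linarith [hZ a b, h.norm_le a b]
  · have e : Z a b * Z c d - (if b = c then Z a d else 0) =
        (Z a b * Z c d - U a b * U c d) - ((if b = c then Z a d else 0) -
          (if b = c then U a d else 0)) := by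
      rw [h.mul]
      abel
    rw [e]
    have h1 := norm_prod_sub_le hη (h.norm_le a b) (h.norm_le c d) (hZ a b) (hZ c d)
    have h2 : ‖(if b = c then Z a d else 0) - (if b = c then U a d else 0)‖ ≤ η := by
      split_ifs
      · exact hZ a d
      · rw [sub_zero, norm_zero]
        exact (norm_nonneg _).trans (hZ a d)
    refine (norm_sub_le _ _).trans ?_
    linarith
  · have e : star (Z a b) - Z b a = star (Z a b - U a b) - (Z b a - U b a) := by
      rw [star_sub, h.str]
      abel
    have hη0 := (norm_nonneg _).trans (hZ a b)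
    rw [e]
    refine (norm_sub_le _ _).trans ?_
    rw [norm_star]
    linarith [hZ a b, hZ b a]
  · rw [← h.one, ← Finset.sum_sub_distrib]
    refine (norm_sum_le _ _).trans ((Finset.sum_le_sum fun a _ => hZ a a).trans ?_)
    rw [Finset.sum_const, nsmul_eq_mul, Finset.card_univ]
    exact hδ

theorem MUnits.map {F : Type*} [CStarAlgebra F] (h : MUnits U) (φ : E →⋆ₐ[ℂ] F) :
    MUnits (fun a b => φ (U a b)) := by
  refine ⟨fun a b c d => ?_, fun a b => ?_, ?_⟩
  · rw [← map_mul, h.mul]
    split_ifs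
    · rfl
    · exact map_zero φ
  · rw [← map_star, h.str]
  · rw [← map_sum, h.one, map_one]

/-- the product of two commuting systems -/
theorem MUnits.prod (h : MUnits U) {V : κ → κ → E} (h' : MUnits V)
    (hc : ∀ a b c d, Commute (U a b) (V c d)) :
    MUnits (fun (p q : ι × κ) => U p.1 q.1 * V p.2 q.2) := by
  refine ⟨fun a b c d => ?_, fun a b => ?_, ?_⟩
  · have : U a.1 b.1 * V a.2 b.2 * (U c.1 d.1 * V c.2 d.2) =
        (U a.1 b.1 * U c.1 d.1) * (V a.2 b.2 * V c.2 d.2) := by
      rw [mul_assoc, ← mul_assoc (V a.2 b.2), ← (hc c.1 d.1 a.2 b.2).eq]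
      simp only [mul_assoc]
    rw [this, h.mul, h'.mul]
    by_cases h1 : b.1 = c.1
    · by_cases h2 : b.2 = c.2
      · rw [if_pos h1, if_pos h2, if_pos (Prod.ext h1 h2)]
      · rw [if_neg h2, if_neg (fun hh => h2 (congrArg Prod.snd hh)), mul_zero]
    · rw [if_neg h1, if_neg (fun hh => h1 (congrArg Prod.fst hh)), zero_mul]
  · rw [star_mul, h.str, h'.str, (hc b.1 a.1 b.2 a.2).eq]
  · rw [Fintype.sum_prod_type]
    have : ∀ a : ι, ∑ b : κ, U a a * V b b = U a a := by
      intro a
      rw [← Finset.mul_sum, h'.one, mul_one]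
    rw [Finset.sum_congr rfl fun a _ => this a, h.one]

/-- the coarser system -/
theorem MUnits.coarse {U : ι × κ → ι × κ → E} (h : MUnits U) :
    MUnits (fun a b : ι => ∑ c : κ, U (a, c) (b, c)) := by
  refine ⟨fun a b c d => ?_, fun a b => ?_, ?_⟩
  · rw [Finset.sum_mul]
    simp_rw [Finset.mul_sum, h.mul]
    split_ifs with hbc
    · subst hbc
      refine Finset.sum_congr rfl fun x _ => ?_
      rw [Finset.sum_eq_single x]
      · rw [if_pos rfl]
      · intro y _ hy
        rw [if_neg]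
        intro hh
        exact hy (congrArg Prod.snd hh).symm
      · intro hh
        exact absurd (Finset.mem_univ _) hh
    · refine Finset.sum_eq_zero fun x _ => Finset.sum_eq_zero fun y _ => if_neg ?_
      intro hh
      exact hbc (congrArg Prod.fst hh)
  · rw [star_sum]
    exact Finset.sum_congr rfl fun x _ => h.str _ _
  · rw [← h.one, Fintype.sum_prod_type]

theorem MUnits.reindex (h : MUnits U) (σ : κ ≃ ι) : MUnits (fun a b => U (σ a) (σ b)) := by
  refine ⟨fun a b c d => ?_, fun a b => h.str _ _, ?_⟩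
  · rw [h.mul]
    by_cases hbc : b = c
    · rw [if_pos hbc, if_pos (congrArg σ hbc)]
    · rw [if_neg hbc, if_neg (fun hh => hbc (σ.injective hh))]
  · rw [← h.one]
    exact σ.sum_comp fun a => U a a

end units

variable {J E : Type u} [CStarAlgebra E] {n : J → ℕ} {e : J → ℕ → ℕ → E}

theorem transfer [Nontrivial E] (h : MUSys n e) (ℓ : List J) (C : StarSubalgebra ℂ E)
    (hC : IsClosed (C : Set E)) (hcomm : ∀ x ∈ C, ∀ y ∈ C, x * y = y * x)
    {ι : Type*} [Fintype ι] [DecidableEq ι] [Nonempty ι] {δ : ℝ}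
    (hδ : δ * (150 * (Fintype.card ι + 1)) ≤ 1)
    (Z : ι → ι → E) (hZ : ∀ a b, Z a b ∈ sliceAlg h ℓ C) (hA : ApproxMU δ Z) :
    Fintype.card ι ∣ (ℓ.map n).prod := by
  obtain ⟨χ⟩ := exists_character C hC hcomm
  have hn := norm_opRep_le h ℓ C hC χ
  let X : ι → ι → sliceAlg h ℓ C := fun a b => ⟨Z a b, hZ a b⟩
  have hAP : ApproxMU δ (fun a b => opRep h ℓ C χ (X a b)) := by
    refine ⟨fun a b => (hn _).trans (hA.nrm a b), fun a b c d => ?_, fun a b => ?_, ?_⟩
    · have e1 : opRep h ℓ C χ (X a b) * opRep h ℓ C χ (X c d) -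
          (if b = c then opRep h ℓ C χ (X a d) else 0) =
          opRep h ℓ C χ (X a b * X c d - (if b = c then X a d else 0)) := by
        rw [map_sub, map_mul]
        split_ifs
        · rfl
        · rw [map_zero]
      rw [e1]
      refine (hn _).trans ?_
      have e2 : ((X a b * X c d - (if b = c then X a d else 0) : sliceAlg h ℓ C) : E) =
          Z a b * Z c d - (if b = c then Z a d else 0) := by
        split_ifs <;> rfl
      rw [e2]
      exact hA.mul a b c d
    · rw [← map_star, ← map_sub]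
      exact (hn _).trans (hA.str a b)
    · rw [← map_sum, ← map_one (opRep h ℓ C χ), ← map_sub]
      refine (hn _).trans ?_
      have e2 : ((∑ a, X a a - 1 : sliceAlg h ℓ C) : E) = ∑ a, Z a a - 1 := by
        have : ((∑ a, X a a : sliceAlg h ℓ C) : E) = ∑ a, Z a a := by
          rw [AddSubmonoidClass.coe_finsetSum]
        rw [AddSubgroupClass.coe_sub, this]
        rfl
      rw [e2]
      exact hA.one
  have := dvd_of_approx ι hδ hAP
  rwa [finrank_euclideanSpace, Fintype.card_coe, card_idx] at this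

/-- The limit argument: elements of the finite stages which approximate the family `U` and whose
slices over the remaining sites almost commute produce a family over the sites in `L`. -/
theorem core [Nontrivial E] (h : MUSys n e) {c : ℝ} (hc : 0 < c)
    (L : List J) (rest r : ℕ → List J) (hrest0 : rest 0 = [])
    (hrest : ∀ m, rest (m + 1) = rest m ++ r m) {B : Type*} (τ : B → B)
    (X : B → ℕ → E) (U : B → E) (hUs : ∀ b, star (U b) = U (τ b))
    (hX : ∀ b m, ‖X b m - U b‖ ≤ c * (1 / 2) ^ m)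
    (hcX : ∀ b m, ∀ j ∈ r m, ∀ a d, Commute (e j a d) (X b m))
    (hcomm : ∀ b b' m, ∀ f ∈ idx ((L ++ rest m).map n), ∀ g ∈ idx ((L ++ rest m).map n),
      ∀ f' ∈ idx ((L ++ rest m).map n), ∀ g' ∈ idx ((L ++ rest m).map n),
      ‖Sl n e (L ++ rest m) f g (X b m) * Sl n e (L ++ rest m) f' g' (X b' m) -
        Sl n e (L ++ rest m) f' g' (X b' m) * Sl n e (L ++ rest m) f g (X b m)‖
        ≤ 6 * (c * (1 / 2) ^ m)) :
    ∃ C : StarSubalgebra ℂ E, IsClosed (C : Set E) ∧ (∀ x ∈ C, ∀ y ∈ C, x * y = y * x) ∧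
      ∃ Z : B → E, (∀ b, Z b ∈ sliceAlg h L C) ∧ ∀ b, ‖Z b - U b‖ ≤ 5 * c := by
  classical
  set Xt : B → ℕ → E := fun b m => Sl n e (rest m) (z0 (rest m)) (z0 (rest m)) (X b m) with hXt
  have hstep : ∀ b m, dist (Xt b m) (Xt b (m + 1)) ≤ 2 * c * (1 / 2) ^ m := by
    intro b m
    have h1 : Xt b (m + 1) = Sl n e (rest m) (z0 (rest m)) (z0 (rest m))
        (Sl n e (r m) (z0 (r m)) (z0 (r m)) (X b (m + 1))) := by
      simp only [hXt]
      rw [hrest m, z0_append, Sl_append _ _ _ _ _ _ (z0_length _) (z0_length _)]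
    have h2 : Xt b m = Sl n e (rest m) (z0 (rest m)) (z0 (rest m))
        (Sl n e (r m) (z0 (r m)) (z0 (r m)) (X b m)) := by
      rw [Sl_of_commute h (r m) _ _ (z0_mem h _) (z0_mem h _) _ (hcX b m), if_pos rfl]
    rw [dist_eq_norm, h1, h2, ← map_sub, ← map_sub]
    refine (norm_Sl_le' h _ _ _ _).trans ((norm_Sl_le' h _ _ _ _).trans ?_)
    have h3 : X b m - X b (m + 1) = (X b m - U b) - (X b (m + 1) - U b) := by abel
    rw [h3]
    calc _ ≤ ‖X b m - U b‖ + ‖X b (m + 1) - U b‖ := norm_sub_le _ _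
      _ ≤ c * (1 / 2) ^ m + c * (1 / 2) ^ (m + 1) := add_le_add (hX b m) (hX b (m + 1))
      _ ≤ 2 * c * (1 / 2) ^ m := by
          rw [pow_succ]
          have : (0 : ℝ) ≤ c * (1 / 2) ^ m := by positivity
          linarith
  have hZ : ∀ b, ∃ z, Tendsto (Xt b) atTop (𝓝 z) := fun b =>
    cauchySeq_tendsto_of_complete
      (cauchySeq_of_le_geometric (1 / 2) (2 * c) (by norm_num) (hstep b))
  choose Z hZ using hZ
  have hZU : ∀ b, ‖Z b - U b‖ ≤ 5 * c := by
    intro b
    have h1 := dist_le_of_le_geometric_of_tendsto₀ (1 / 2) (2 * c) (by norm_num) (hstep b) (hZ b)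
    have h2 : Xt b 0 = X b 0 := by
      simp only [hXt]
      rw [hrest0]
      simp
    rw [h2, dist_eq_norm] at h1
    have h3 := hX b 0
    rw [pow_zero, mul_one] at h3
    have h4 : Z b - U b = -(X b 0 - Z b) + (X b 0 - U b) := by abel
    rw [h4]
    refine (norm_add_le _ _).trans ?_
    rw [norm_neg]
    norm_num at h1
    linarith
  have hgeo : Tendsto (fun m : ℕ => 6 * (c * (1 / 2 : ℝ) ^ m)) atTop (𝓝 0) := by
    have := (tendsto_pow_atTop_nhds_zero_of_lt_one (r := (1 / 2 : ℝ)) (by norm_num)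
      (by norm_num)).const_mul c
    simpa using this.const_mul 6
  have hZs : ∀ b, star (Z b) = Z (τ b) := by
    intro b
    have h1 : Tendsto (fun m => star (Xt b m) - Xt (τ b) m) atTop (𝓝 (star (Z b) - Z (τ b))) :=
      (hZ b).star.sub (hZ (τ b))
    have h2 : Tendsto (fun m => star (Xt b m) - Xt (τ b) m) atTop (𝓝 0) := by
      refine squeeze_zero_norm (fun m => ?_) hgeo
      simp only [hXt]
      rw [Sl_star h, ← map_sub]
      refine (norm_Sl_le' h _ _ _ _).trans ?_
      have h3 : star (X b m) - X (τ b) m = star (X b m - U b) - (X (τ b) m - U (τ b)) := by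
        rw [star_sub, hUs b]
        abel
      rw [h3]
      refine (norm_sub_le _ _).trans ?_
      rw [norm_star]
      have := hX b m
      have := hX (τ b) m
      have h0 : (0 : ℝ) ≤ c * (1 / 2) ^ m := by positivity
      linarith
    exact sub_eq_zero.mp (tendsto_nhds_unique h1 h2)
  have hZc : ∀ b b', ∀ f ∈ idx (L.map n), ∀ g ∈ idx (L.map n), ∀ f' ∈ idx (L.map n),
      ∀ g' ∈ idx (L.map n), Sl n e L f g (Z b) * Sl n e L f' g' (Z b') =
        Sl n e L f' g' (Z b') * Sl n e L f g (Z b) := by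
    intro b b' f hf g hg f' hf' g' hg'
    have t1 : Tendsto (fun m => Sl n e L f g (Xt b m)) atTop (𝓝 (Sl n e L f g (Z b))) :=
      ((continuous_Sl h L f g).tendsto _).comp (hZ b)
    have t2 : Tendsto (fun m => Sl n e L f' g' (Xt b' m)) atTop
        (𝓝 (Sl n e L f' g' (Z b'))) := ((continuous_Sl h L f' g').tendsto _).comp (hZ b')
    have t3 := (t1.mul t2).sub (t2.mul t1)
    have t4 : Tendsto (fun m => Sl n e L f g (Xt b m) * Sl n e L f' g' (Xt b' m) -
        Sl n e L f' g' (Xt b' m) * Sl n e L f g (Xt b m)) atTop (𝓝 0) := by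
      refine squeeze_zero_norm (fun m => ?_) hgeo
      have hl : ∀ k ∈ idx (L.map n), k.length = L.length := fun k hk => by
        simpa using length_of_mem_idx hk
      have hm : ∀ k ∈ idx (L.map n), k ++ z0 (rest m) ∈ idx ((L ++ rest m).map n) := by
        intro k hk
        rw [List.map_append]
        exact append_mem_idx hk (z0_mem h _)
      have := hcomm b b' m (f ++ z0 (rest m)) (hm f hf) (g ++ z0 (rest m)) (hm g hg)
        (f' ++ z0 (rest m)) (hm f' hf') (g' ++ z0 (rest m)) (hm g' hg')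
      rwa [Sl_append _ _ _ _ _ _ (hl f hf) (hl g hg),
        Sl_append _ _ _ _ _ _ (hl f' hf') (hl g' hg')] at this
    exact sub_eq_zero.mp (tendsto_nhds_unique t3 t4)
  let s : Set E := {z | ∃ b, ∃ f ∈ idx (L.map n), ∃ g ∈ idx (L.map n), Sl n e L f g (Z b) = z}
  have hs : ∀ z ∈ s, ∀ w ∈ s, z * w = w * z := by
    rintro _ ⟨b, f, hf, g, hg, rfl⟩ _ ⟨b', f', hf', g', hg', rfl⟩
    exact hZc b b' f hf g hg f' hf' g' hg'
  have hss : ∀ z ∈ s, star z ∈ s := by
    rintro _ ⟨b, f, hf, g, hg, rfl⟩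
    refine ⟨τ b, g, hg, f, hf, ?_⟩
    rw [Sl_star h, hZs b]
  have hsu : s ∪ star s = s := by
    refine Set.union_eq_self_of_subset_right ?_
    intro z hz
    have := hss _ hz
    rwa [star_star] at this
  let C : StarSubalgebra ℂ E := StarSubalgebra.centralizer ℂ (StarSubalgebra.centralizer ℂ s : Set E)
  have hCc : (C : Set E) = s.centralizer.centralizer := by
    have := StarSubalgebra.coe_centralizer_centralizer ℂ s
    rw [hsu] at this
    exact this
  have hC : IsClosed (C : Set E) := by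
    rw [hCc]
    exact Set.isClosed_centralizer _
  have hCcomm : ∀ x ∈ C, ∀ y ∈ C, x * y = y * x := by
    intro x hx y hy
    have hx' : x ∈ s.centralizer.centralizer := hCc ▸ hx
    have hy' : y ∈ s.centralizer.centralizer := hCc ▸ hy
    exact Set.centralizer_centralizer_comm_of_comm hs x hx' y hy'
  have hsC : ∀ z ∈ s, z ∈ C := by
    intro z hz
    have : z ∈ (C : Set E) := by
      rw [hCc]
      exact Set.subset_centralizer_centralizer hz
    exact this
  exact ⟨C, hC, hCcomm, Z, fun b f hf g hg => hsC _ ⟨b, f, hf, g, hg, rfl⟩, hZU⟩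

end Pool.Agent.H180.UP
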