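import Pool.Agent.Helper741.UHF.Numeric

/-! Approximate systems of matrix units on a finite-dimensional Hilbert space. -/

open Module Finset

universe u

namespace Pool.Agent.H180.UP

open Pool.Agent.Helper741.UHF

/-- approximate matrix units -/
structure ApproxMU {ι A : Type*} [Fintype ι] [DecidableEq ι] [CStarAlgebra A] (δ : ℝ)
    (F : ι → ι → A) : Prop where
  nrm : ∀ a b, ‖F a b‖ ≤ 2
  mul : ∀ a b c d, ‖F a b * F c d - (if b = c then F a d else 0)‖ ≤ δ
  str : ∀ a b, ‖star (F a b) - F b a‖ ≤ δ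
  one : ‖∑ a, F a a - 1‖ ≤ δ

theorem exists_proj_near {A : Type*} [CStarAlgebra A] {p : A} {δ : ℝ} (hδ : δ ≤ 1 / 150)
    (hp : ‖p‖ ≤ 2) (hpp : ‖p * p - p‖ ≤ δ) (hs : ‖star p - p‖ ≤ δ) :
    ∃ P : A, IsStarProjection P ∧ ‖P - p‖ ≤ 8 * δ := by
  rcases subsingleton_or_nontrivial A with hA | hA
  · refine ⟨0, .zero A, ?_⟩
    have hδ0 : 0 ≤ δ := (norm_nonneg _).trans hpp
    rw [Subsingleton.elim (0 - p) 0, norm_zero]
    linarith
  have hδ0 : 0 ≤ δ := (norm_nonneg _).trans hpp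
  set s := star p - p with hsdef
  set X := p + star p - 1 with hX
  have hXsa : IsSelfAdjoint X := by
    rw [IsSelfAdjoint, hX, star_sub, star_add, star_star, star_one, add_comm]
  have hX2 : X = p + p - 1 + s := by
    rw [hX, hsdef]
    abel
  have h1 : X * X - 1 = (4 : ℕ) • (p * p - p) + (p + p - 1) * s + s * (p + p - 1) +
      s * s := by
    rw [hX2]
    noncomm_ring
  have h2p : ‖p + p - 1‖ ≤ 5 := by
    have h5 : ‖p + p‖ ≤ 2 + 2 := (norm_add_le _ _).trans (add_le_add hp hp)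
    refine (norm_sub_le _ _).trans ?_
    rw [norm_one]
    linarith
  have h2 : ‖X * X - 1‖ ≤ 15 * δ := by
    rw [h1]
    have e1 : ‖(4 : ℕ) • (p * p - p)‖ ≤ 4 * δ := by
      refine (norm_nsmul_le).trans ?_
      norm_num
      exact hpp
    have e2 : ‖(p + p - 1) * s‖ ≤ 5 * δ :=
      (norm_mul_le _ _).trans (mul_le_mul h2p hs (norm_nonneg _) (by norm_num))
    have e3 : ‖s * (p + p - 1)‖ ≤ δ * 5 :=
      (norm_mul_le _ _).trans (mul_le_mul hs h2p (norm_nonneg _) hδ0)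
    have e4 : ‖s * s‖ ≤ δ * 1 :=
      (norm_mul_le _ _).trans (mul_le_mul hs (hs.trans (by linarith)) (norm_nonneg _) hδ0)
    calc _ ≤ ‖(4 : ℕ) • (p * p - p) + (p + p - 1) * s + s * (p + p - 1)‖ + ‖s * s‖ :=
          norm_add_le _ _
      _ ≤ ‖(4 : ℕ) • (p * p - p) + (p + p - 1) * s‖ + ‖s * (p + p - 1)‖ + ‖s * s‖ := by
          gcongr
          exact norm_add_le _ _
      _ ≤ ‖(4 : ℕ) • (p * p - p)‖ + ‖(p + p - 1) * s‖ + ‖s * (p + p - 1)‖ + ‖s * s‖ := by
          gcongr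
          exact norm_add_le _ _
      _ ≤ 15 * δ := by linarith
  obtain ⟨P, hP, hPX⟩ := exists_projection hXsa (δ := 15 * δ) (by linarith) (by linarith) h2
  refine ⟨P, hP, ?_⟩
  have h3 : P - p = (P - (1 / 2 : ℝ) • (1 + X)) + (1 / 2 : ℝ) • s := by
    have : (1 / 2 : ℝ) • (1 + X) = p + (1 / 2 : ℝ) • s := by
      rw [hX, hsdef]
      have h4 : (1 : A) + (p + star p - 1) = p + p + (star p - p) := by abel
      rw [h4, smul_add, ← two_smul ℝ p, smul_smul]
      norm_num
    rw [this]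
    abel
  rw [h3]
  refine (norm_add_le _ _).trans ?_
  have h4 : ‖(1 / 2 : ℝ) • s‖ ≤ 1 / 2 * δ := by
    rw [norm_smul]
    norm_num
    linarith
  linarith

section hilbert

variable {H : Type u} [NormedAddCommGroup H] [InnerProductSpace ℂ H] [FiniteDimensional ℂ H]

theorem finrank_le_of_near {P Q F G : H →L[ℂ] H} (hP : P * P = P) (h : ‖F * Q * G - P‖ < 1) :
    finrank ℂ (LinearMap.range (P : H →ₗ[ℂ] H)) ≤
      finrank ℂ (LinearMap.range (Q : H →ₗ[ℂ] H)) := by
  let φ : LinearMap.range (P : H →ₗ[ℂ] H) →ₗ[ℂ] LinearMap.range (Q : H →ₗ[ℂ] H) :=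
    (((Q : H →ₗ[ℂ] H).rangeRestrict).comp (G : H →ₗ[ℂ] H)).comp
      (LinearMap.range (P : H →ₗ[ℂ] H)).subtype
  refine LinearMap.finrank_le_finrank_of_injective (f := φ) ?_
  rw [← LinearMap.ker_eq_bot, LinearMap.ker_eq_bot']
  rintro ⟨ξ, η, rfl⟩ hξ
  have h0 : Q (G (P η)) = 0 := congrArg Subtype.val hξ
  have hPP : P (P η) = P η := by
    have := congrArg (fun T : H →L[ℂ] H => T η) hP
    simpa using this
  have h1 : (F * Q * G - P) (P η) = - P η := by
    have : (F * Q * G - P) (P η) = F (Q (G (P η))) - P (P η) := rfl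
    rw [this, h0, hPP, map_zero, zero_sub]
  have h2 : ‖P η‖ ≤ ‖F * Q * G - P‖ * ‖P η‖ := by
    calc ‖P η‖ = ‖(F * Q * G - P) (P η)‖ := by rw [h1, norm_neg]
      _ ≤ _ := (F * Q * G - P).le_opNorm _
  have h3 : ‖P η‖ = 0 := by nlinarith [norm_nonneg (P η)]
  ext
  exact norm_eq_zero.mp h3

theorem finrank_sum {ι : Type*} [Fintype ι] [DecidableEq ι] [Nonempty ι] {P : ι → (H →L[ℂ] H)}
    {ε : ℝ} (hPP : ∀ a, P a * P a = P a) (hε : Fintype.card ι * ε < 1)
    (horth : ∀ a b, a ≠ b → ‖P a * P b‖ ≤ ε) (hone : ‖∑ a, P a - 1‖ < 1) :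
    finrank ℂ H = ∑ a, finrank ℂ (LinearMap.range (P a : H →ₗ[ℂ] H)) := by
  let V : ι → Submodule ℂ H := fun a => LinearMap.range (P a : H →ₗ[ℂ] H)
  have hfix : ∀ a (ξ : V a), P a ξ = ξ := by
    rintro a ⟨_, η, rfl⟩
    have := congrArg (fun T : H →L[ℂ] H => T η) (hPP a)
    simpa using this
  let Φ : (∀ a, V a) →ₗ[ℂ] H := ∑ a, (V a).subtype.comp (LinearMap.proj a)
  have hΦ : ∀ ξ, Φ ξ = ∑ a, (ξ a : H) := fun ξ => by simp [Φ]
  have hinj : Function.Injective Φ := by
    rw [← LinearMap.ker_eq_bot, LinearMap.ker_eq_bot']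
    intro ξ hξ
    rw [hΦ] at hξ
    obtain ⟨a0, ha0⟩ := Finite.exists_max fun a => ‖(ξ a : H)‖
    have h1 : (ξ a0 : H) = - ∑ a ∈ univ.erase a0, P a0 (P a (ξ a : H)) := by
      have h2 : P a0 (∑ a, (ξ a : H)) = 0 := by rw [hξ, map_zero]
      rw [map_sum, ← Finset.add_sum_erase _ _ (Finset.mem_univ a0), hfix a0] at h2
      rw [eq_neg_iff_add_eq_zero, ← h2]
      congr 1
      exact Finset.sum_congr rfl fun a _ => by rw [hfix a]
    have h3 : ‖(ξ a0 : H)‖ ≤ (Fintype.card ι * ε) * ‖(ξ a0 : H)‖ := by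
      calc ‖(ξ a0 : H)‖ = ‖∑ a ∈ univ.erase a0, P a0 (P a (ξ a : H))‖ := by
            conv_lhs => rw [h1]
            rw [norm_neg]
        _ ≤ ∑ a ∈ univ.erase a0, ‖P a0 (P a (ξ a : H))‖ := norm_sum_le _ _
        _ ≤ ∑ a ∈ univ.erase a0, ε * ‖(ξ a0 : H)‖ := by
            refine Finset.sum_le_sum fun a ha => ?_
            have hne : a0 ≠ a := (Finset.ne_of_mem_erase ha).symm
            have h4 : ‖(P a0 * P a) (ξ a : H)‖ ≤ ‖P a0 * P a‖ * ‖(ξ a : H)‖ :=
              (P a0 * P a).le_opNorm _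
            refine h4.trans ?_
            have hε0 : 0 ≤ ε := (norm_nonneg _).trans (horth a0 a hne)
            exact mul_le_mul (horth a0 a hne) (ha0 a) (norm_nonneg _) hε0
        _ ≤ (Fintype.card ι * ε) * ‖(ξ a0 : H)‖ := by
            rw [Finset.sum_const, nsmul_eq_mul, ← mul_assoc]
            rcases eq_or_ne (univ.erase a0) ∅ with he | he
            · rw [he]
              simp only [Finset.card_empty, Nat.cast_zero, zero_mul]
              have : (ξ a0 : H) = 0 := by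
                rw [h1, he, Finset.sum_empty, neg_zero]
              rw [this, norm_zero, mul_zero]
            · obtain ⟨a, ha⟩ := Finset.nonempty_iff_ne_empty.mpr he
              have hε0 : 0 ≤ ε := (norm_nonneg _).trans
                (horth a0 a (Finset.ne_of_mem_erase ha).symm)
              gcongr
              exact Finset.card_le_univ _
    have h4 : ‖(ξ a0 : H)‖ = 0 := by nlinarith [norm_nonneg (ξ a0 : H)]
    funext a
    have h5 : ‖(ξ a : H)‖ = 0 := le_antisymm ((ha0 a).trans h4.le) (norm_nonneg _)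
    exact Subtype.ext (norm_eq_zero.mp h5)
  have hsurj : Function.Surjective Φ := by
    have hS : Function.Injective ((∑ a, P a : H →L[ℂ] H) : H →ₗ[ℂ] H) := by
      rw [← LinearMap.ker_eq_bot, LinearMap.ker_eq_bot']
      intro ξ hξ
      have hξ' : (∑ a, P a) ξ = 0 := hξ
      have h1 : (∑ a, P a - 1) ξ = - ξ := by
        have : (∑ a, P a - 1) ξ = (∑ a, P a) ξ - ξ := rfl
        rw [this, hξ', zero_sub]
      have h2 : ‖ξ‖ ≤ ‖∑ a, P a - 1‖ * ‖ξ‖ := by
        calc ‖ξ‖ = ‖(∑ a, P a - 1) ξ‖ := by rw [h1, norm_neg]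
          _ ≤ _ := (∑ a, P a - 1).le_opNorm _
      have h3 : ‖ξ‖ = 0 := by nlinarith [norm_nonneg ξ]
      exact norm_eq_zero.mp h3
    have hS2 := LinearMap.injective_iff_surjective.mp hS
    intro ζ
    obtain ⟨ξ, hξ⟩ := hS2 ζ
    refine ⟨fun a => ⟨P a ξ, ξ, rfl⟩, ?_⟩
    rw [hΦ, ← hξ]
    simp
  have := LinearEquiv.finrank_eq (LinearEquiv.ofBijective Φ ⟨hinj, hsurj⟩)
  rw [← this, Module.finrank_pi_fintype]

theorem dvd_of_approx (ι : Type*) [Fintype ι] [DecidableEq ι] [Nonempty ι] {δ : ℝ}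
    (hδ : δ * (150 * (Fintype.card ι + 1)) ≤ 1)
    {F : ι → ι → (H →L[ℂ] H)} (h : ApproxMU δ F) : Fintype.card ι ∣ finrank ℂ H := by
  have hδ0 : 0 ≤ δ := (norm_nonneg _).trans h.one
  have hq : (0 : ℝ) ≤ Fintype.card ι := Nat.cast_nonneg _
  have hδ1 : δ ≤ 1 / 150 := by
    rw [le_div_iff₀ (by norm_num)]
    nlinarith
  have hP : ∀ a, ∃ P : H →L[ℂ] H, IsStarProjection P ∧ ‖P - F a a‖ ≤ 8 * δ := by
    intro a
    refine exists_proj_near hδ1 (h.nrm a a) ?_ (h.str a a)
    have := h.mul a a a a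
    rwa [if_pos rfl] at this
  choose P hP hPF using hP
  have hPP : ∀ a, P a * P a = P a := fun a => (hP a).isIdempotentElem.eq
  have hP1 : ∀ a, ‖P a‖ ≤ 1 := fun a => norm_proj_le_one (hP a)
  have hle : ∀ a b, finrank ℂ (LinearMap.range (P a : H →ₗ[ℂ] H)) ≤
      finrank ℂ (LinearMap.range (P b : H →ₗ[ℂ] H)) := by
    intro a b
    refine finrank_le_of_near (F := F a b) (G := F b a) (hPP a) ?_
    have e : F a b * P b * F b a - P a = F a b * (P b - F b b) * F b a +
        (F a b * F b b - F a b) * F b a + (F a b * F b a - F a a) + (F a a - P a) := by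
      noncomm_ring
    rw [e]
    have e1 : ‖F a b * (P b - F b b) * F b a‖ ≤ 2 * (8 * δ) * 2 := by
      refine (norm_mul_le _ _).trans (mul_le_mul ((norm_mul_le _ _).trans ?_) (h.nrm _ _)
        (norm_nonneg _) (by positivity))
      exact mul_le_mul (h.nrm _ _) (hPF b) (norm_nonneg _) (by norm_num)
    have e2 : ‖(F a b * F b b - F a b) * F b a‖ ≤ δ * 2 := by
      refine (norm_mul_le _ _).trans (mul_le_mul ?_ (h.nrm _ _) (norm_nonneg _) hδ0)
      have := h.mul a b b b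
      rwa [if_pos rfl] at this
    have e3 : ‖F a b * F b a - F a a‖ ≤ δ := by
      have := h.mul a b b a
      rwa [if_pos rfl] at this
    have e4 : ‖F a a - P a‖ ≤ 8 * δ := by
      rw [norm_sub_rev]
      exact hPF a
    calc _ ≤ ‖F a b * (P b - F b b) * F b a + (F a b * F b b - F a b) * F b a +
            (F a b * F b a - F a a)‖ + ‖F a a - P a‖ := norm_add_le _ _
      _ ≤ ‖F a b * (P b - F b b) * F b a + (F a b * F b b - F a b) * F b a‖ +
            ‖F a b * F b a - F a a‖ + ‖F a a - P a‖ := by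
          gcongr
          exact norm_add_le _ _
      _ ≤ ‖F a b * (P b - F b b) * F b a‖ + ‖(F a b * F b b - F a b) * F b a‖ +
            ‖F a b * F b a - F a a‖ + ‖F a a - P a‖ := by
          gcongr
          exact norm_add_le _ _
      _ < 1 := by linarith
  have heq : ∀ a b, finrank ℂ (LinearMap.range (P a : H →ₗ[ℂ] H)) =
      finrank ℂ (LinearMap.range (P b : H →ₗ[ℂ] H)) := fun a b => le_antisymm (hle a b) (hle b a)
  have hsum := finrank_sum (P := P) (ε := 25 * δ) hPP (by nlinarith) (by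
    intro a b hab
    have e : P a * P b = (P a - F a a) * P b + F a a * (P b - F b b) + F a a * F b b := by
      noncomm_ring
    rw [e]
    have e1 : ‖(P a - F a a) * P b‖ ≤ 8 * δ * 1 :=
      (norm_mul_le _ _).trans (mul_le_mul (hPF a) (hP1 b) (norm_nonneg _) (by positivity))
    have e2 : ‖F a a * (P b - F b b)‖ ≤ 2 * (8 * δ) :=
      (norm_mul_le _ _).trans (mul_le_mul (h.nrm _ _) (hPF b) (norm_nonneg _) (by norm_num))
    have e3 : ‖F a a * F b b‖ ≤ δ := by
      have := h.mul a a b b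
      rwa [if_neg hab, sub_zero] at this
    calc _ ≤ ‖(P a - F a a) * P b + F a a * (P b - F b b)‖ + ‖F a a * F b b‖ := norm_add_le _ _
      _ ≤ ‖(P a - F a a) * P b‖ + ‖F a a * (P b - F b b)‖ + ‖F a a * F b b‖ := by
          gcongr
          exact norm_add_le _ _
      _ ≤ 25 * δ := by linarith) (by
    have e : ∑ a, P a - 1 = ∑ a, (P a - F a a) + (∑ a, F a a - 1) := by
      rw [Finset.sum_sub_distrib]
      abel
    rw [e]
    have e1 : ‖∑ a, (P a - F a a)‖ ≤ Fintype.card ι * (8 * δ) := by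
      refine (norm_sum_le _ _).trans ?_
      refine (Finset.sum_le_sum fun a _ => hPF a).trans ?_
      rw [Finset.sum_const, nsmul_eq_mul, Finset.card_univ]
    calc _ ≤ ‖∑ a, (P a - F a a)‖ + ‖∑ a, F a a - 1‖ := norm_add_le _ _
      _ ≤ Fintype.card ι * (8 * δ) + δ := add_le_add e1 h.one
      _ < 1 := by nlinarith)
  obtain ⟨a0⟩ := (inferInstance : Nonempty ι)
  rw [hsum, Finset.sum_congr rfl fun a _ => heq a a0, Finset.sum_const, smul_eq_mul,
    Finset.card_univ]
  exact dvd_mul_right _ _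

end hilbert

end Pool.Agent.H180.UP
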